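import Pool.Agent.K1H88.DF.Stm

/-! Embeddings into `Q̄_p` with the same norms are conjugate. -/

set_option autoImplicit false

namespace Pool.Agent.K1H26.DF

open Module NumberField Polynomial
open Pool.Agent.K1H88.DP (Kp)

section

variable {F : Type} [Field F] [NumberField F] {p : Nat.Primes}

omit [NumberField F] in
theorem cast_rat (u : F →+* Kp p) (r : ℚ) : u (r : F) = algebraMap ℚ_[(p : ℕ)] (Kp p) (r : ℚ_[(p : ℕ)]) := by
  rw [map_ratCast, map_ratCast]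

omit [NumberField F] in
theorem mono_bound (θ : F) (u : F →+* Kp p) (n : ℕ) (c : ℚ_[(p : ℕ)]) (r : ℚ) :
    ‖aeval (u θ) (monomial n c) - u ((r : F) * θ ^ n)‖ = ‖c - r‖ * ‖u θ‖ ^ n := by
  rw [aeval_monomial, map_mul, map_pow, cast_rat, ← sub_mul, ← map_sub, norm_mul, norm_pow]
  congr 1
  exact PadicAlgCl.norm_extends (p : ℕ) _

theorem approx (θ : F) (u v : F →+* Kp p) (g : ℚ_[(p : ℕ)][X]) : ∀ ε : ℝ, 0 < ε →
    ∃ z : F, ‖aeval (u θ) g - u z‖ < ε ∧ ‖aeval (v θ) g - v z‖ < ε := by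
  induction g using Polynomial.induction_on' with
  | add g₁ g₂ h₁ h₂ =>
    intro ε hε
    obtain ⟨z₁, h1, h2⟩ := h₁ (ε / 2) (by positivity)
    obtain ⟨z₂, h3, h4⟩ := h₂ (ε / 2) (by positivity)
    refine ⟨z₁ + z₂, ?_, ?_⟩
    · rw [map_add, map_add, add_sub_add_comm]
      exact lt_of_le_of_lt (norm_add_le _ _) (by linarith)
    · rw [map_add, map_add, add_sub_add_comm]
      exact lt_of_le_of_lt (norm_add_le _ _) (by linarith)
  | monomial n c =>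
    intro ε hε
    have hA : 0 < ‖u θ‖ ^ n + ‖v θ‖ ^ n + 1 := by positivity
    obtain ⟨r, hr⟩ := Padic.rat_dense (p : ℕ) c (div_pos hε hA)
    rw [lt_div_iff₀ hA] at hr
    have h0 : 0 ≤ ‖c - r‖ := norm_nonneg _
    have h1 : 0 ≤ ‖c - r‖ * ‖u θ‖ ^ n := by positivity
    have h2 : 0 ≤ ‖c - r‖ * ‖v θ‖ ^ n := by positivity
    refine ⟨(r : F) * θ ^ n, ?_, ?_⟩
    · rw [mono_bound]
      linarith
    · rw [mono_bound]
      linarith

end

theorem t_CONJ : Pool.Agent.K1H88.DF.S_CONJ := by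
  intro F _ _ p u v huv
  let pb := Field.powerBasisOfFiniteOfSeparable ℚ F
  set θ : F := pb.gen with hθ
  have hint : IsIntegral ℚ_[(p : ℕ)] (u θ) := Algebra.IsIntegral.isIntegral _
  have h0 : aeval (v θ) (minpoly ℚ_[(p : ℕ)] (u θ)) = 0 := by
    by_contra hne
    have hpos : 0 < ‖aeval (v θ) (minpoly ℚ_[(p : ℕ)] (u θ))‖ := norm_pos_iff.2 hne
    obtain ⟨z, h1, h2⟩ := approx θ u v (minpoly ℚ_[(p : ℕ)] (u θ)) _ (half_pos hpos)
    rw [minpoly.aeval, zero_sub, norm_neg, huv] at h1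
    have h3 := norm_sub_norm_le (aeval (v θ) (minpoly ℚ_[(p : ℕ)] (u θ))) (v z)
    linarith
  have h1 : minpoly ℚ_[(p : ℕ)] (u θ) = minpoly ℚ_[(p : ℕ)] (v θ) :=
    minpoly.eq_of_irreducible_of_monic (minpoly.irreducible hint) h0 (minpoly.monic hint)
  have hn : Normal ℚ_[(p : ℕ)] (Kp p) := inferInstance
  obtain ⟨τ, hτ⟩ := (isConjRoot_iff_exists_algEquiv (K := ℚ_[(p : ℕ)])).1
    (show IsConjRoot ℚ_[(p : ℕ)] (v θ) (u θ) from h1.symm)
  have h2 : (((τ : Kp p ≃+* Kp p) : Kp p →+* Kp p).comp u).toRatAlgHom = v.toRatAlgHom := by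
    apply pb.algHom_ext
    exact hτ
  exact ⟨τ, fun z => congrArg (fun φ : F →ₐ[ℚ] Kp p => φ z) h2⟩

end Pool.Agent.K1H26.DF
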